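import Mathlib

/-!
# MP_55034c: the union of the ranges of independent stationary walks does not always dominate
the range of one walk
-/

set_option autoImplicit false

namespace Pool.Agent.Results.MP_55034c_pr.Counterexample

open Finset

section defs

variable {V K : Type*} [Fintype V] [DecidableEq V] [Field K]

/-- The probability of the trajectory `w 0, w 1, ..., w s` of the chain with initial law `π` and
transition matrix `P`. -/
def pathWeight (P : Matrix V V K) (π : V → K) {s : ℕ} (w : Fin (s + 1) → V) : K :=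
  π (w 0) * ∏ i : Fin s, P (w i.castSucc) (w i.succ)

/-- `P_π(|R(t)| ≥ y)`: the sum of the probabilities of all trajectories of length `t` that visit
at least `y` states. -/
def probSingle (P : Matrix V V K) (π : V → K) (t y : ℕ) : K :=
  ∑ w : Fin (t + 1) → V, if y ≤ (univ.image w).card then pathWeight P π w else 0

/-- `P_{π^k}(|R_1(t_1) ∪ ... ∪ R_k(t_k)| ≥ y)` for `k` independent chains started from `π`: the
sum of the products of the probabilities over all `k`-tuples of trajectories of lengths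
`t_1, ..., t_k` that together visit at least `y` states. -/
def probUnion (P : Matrix V V K) (π : V → K) {k : ℕ} (t : Fin k → ℕ) (y : ℕ) : K :=
  ∑ w : (i : Fin k) → Fin (t i + 1) → V,
    if y ≤ (univ.biUnion fun i => univ.image (w i)).card then ∏ i, pathWeight P π (w i) else 0

end defs

/-- `P` is the transition matrix of a reversible, irreducible and aperiodic chain with stationary
distribution `π`. -/
structure IsRevChain {V : Type} [Fintype V] [DecidableEq V] (P : Matrix V V ℝ) (π : V → ℝ) :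
    Prop where
  nonneg : ∀ x y, 0 ≤ P x y
  row_sum : ∀ x, ∑ y, P x y = 1
  pi_pos : ∀ x, 0 < π x
  pi_sum : ∑ x, π x = 1
  reversible : ∀ x y, π x * P x y = π y * P y x
  irreducible : ∀ x y, ∃ m : ℕ, 0 < (P ^ m) x y
  aperiodic : ∀ x, ∀ d : ℕ, (∀ m : ℕ, 1 ≤ m → 0 < (P ^ m) x x → d ∣ m) → d = 1

/-- The stochastic domination asked for in the problem: for all reversible, irreducible and
aperiodic finite chains, all `k ≥ 1`, all positive `t_1, ..., t_k` and all `y ≥ 1`. -/
def Domination : Prop :=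
  ∀ (V : Type) [Fintype V] [DecidableEq V] (P : Matrix V V ℝ) (π : V → ℝ), IsRevChain P π →
    ∀ (k : ℕ) (t : Fin k → ℕ), 1 ≤ k → (∀ i, 1 ≤ t i) → ∀ y : ℕ, 1 ≤ y →
      probSingle P π (∑ i, t i) y ≤ probUnion P π t y

/-! ### the counterexample

The conductances are those of the cycle `0 - 1 - 2 - 3 - 0` with `c(0,1) = c(0,3) = 2`,
`c(1,2) = c(2,3) = 1`, and a loop of conductance `196` at `0`; `t_1 = 1`, `t_2 = 2`, `y = 4`. -/

/-- the transition matrix -/
def PQ : Matrix (Fin 4) (Fin 4) ℚ :=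
  !![49/50, 1/100, 0, 1/100; 2/3, 0, 1/3, 0; 0, 1/2, 0, 1/2; 2/3, 0, 1/3, 0]

/-- the stationary distribution -/
def piQ : Fin 4 → ℚ := ![200/208, 3/208, 2/208, 3/208]

lemma single_gt : 1/157 < probSingle PQ piQ 3 4 := by
  decide +kernel

lemma union_lt : probUnion PQ piQ ![1, 2] 4 < 1/157 := by
  decide +kernel

lemma pow_pos4 : ∀ z : Fin 4 × Fin 4, (0 : ℚ) < (PQ ^ 4) z.1 z.2 := by decide +kernel

lemma pow_pos5 : ∀ z : Fin 4 × Fin 4, (0 : ℚ) < (PQ ^ 5) z.1 z.2 := by decide +kernel

lemma PQ_nonneg : ∀ z : Fin 4 × Fin 4, (0 : ℚ) ≤ PQ z.1 z.2 := by decide +kernel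

lemma PQ_row : ∀ x, ∑ y, PQ x y = 1 := by decide +kernel

lemma piQ_pos : ∀ x, 0 < piQ x := by decide +kernel

lemma piQ_sum : ∑ x, piQ x = 1 := by decide +kernel

lemma PQ_rev : ∀ x y, piQ x * PQ x y = piQ y * PQ y x := by decide +kernel

/-- the real versions -/
noncomputable def PR : Matrix (Fin 4) (Fin 4) ℝ := (Rat.castHom ℝ).mapMatrix PQ

/-- the real stationary distribution -/
noncomputable def piR : Fin 4 → ℝ := fun x => ((piQ x : ℚ) : ℝ)

lemma PR_apply (x y : Fin 4) : PR x y = ((PQ x y : ℚ) : ℝ) := rfl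

lemma PR_pow (m : ℕ) (x y : Fin 4) : (PR ^ m) x y = (((PQ ^ m) x y : ℚ) : ℝ) := by
  unfold PR
  rw [← map_pow]
  rfl

lemma pathWeight_cast {s : ℕ} (w : Fin (s + 1) → Fin 4) :
    pathWeight PR piR w = ((pathWeight PQ piQ w : ℚ) : ℝ) := by
  unfold pathWeight
  push_cast
  rfl

lemma single_cast (t y : ℕ) : probSingle PR piR t y = ((probSingle PQ piQ t y : ℚ) : ℝ) := by
  unfold probSingle
  rw [Rat.cast_sum]
  apply Finset.sum_congr rfl
  intro w _
  rw [apply_ite (fun q : ℚ => (q : ℝ)), pathWeight_cast, Rat.cast_zero]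

lemma union_cast {k : ℕ} (t : Fin k → ℕ) (y : ℕ) :
    probUnion PR piR t y = ((probUnion PQ piQ t y : ℚ) : ℝ) := by
  unfold probUnion
  rw [Rat.cast_sum]
  apply Finset.sum_congr rfl
  intro w _
  rw [apply_ite (fun q : ℚ => (q : ℝ)), Rat.cast_zero, Rat.cast_prod]
  congr 1
  exact Finset.prod_congr rfl fun i _ => pathWeight_cast (w i)

lemma chain : IsRevChain PR piR where
  nonneg x y := by rw [PR_apply]; exact_mod_cast PQ_nonneg (x, y)
  row_sum x := by
    simp only [PR_apply]
    exact_mod_cast PQ_row x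
  pi_pos x := by unfold piR; exact_mod_cast piQ_pos x
  pi_sum := by unfold piR; exact_mod_cast piQ_sum
  reversible x y := by rw [PR_apply, PR_apply]; unfold piR; exact_mod_cast PQ_rev x y
  irreducible x y := ⟨4, by rw [PR_pow]; exact_mod_cast pow_pos4 (x, y)⟩
  aperiodic x d h := by
    have h4 := h 4 (by norm_num) (by rw [PR_pow]; exact_mod_cast pow_pos4 (x, x))
    have h5 := h 5 (by norm_num) (by rw [PR_pow]; exact_mod_cast pow_pos5 (x, x))
    have := Nat.dvd_sub h5 h4
    simpa using this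

/-- **The stochastic domination fails**: there is a reversible, irreducible and aperiodic chain
on `4` states for which, with `k = 2`, `t_1 = 1`, `t_2 = 2`,
`P_{π²}(|R_1(1) ∪ R_2(2)| ≥ 4) < P_π(|R(3)| ≥ 4)`. -/
theorem result :
    (∃ (P : Matrix (Fin 4) (Fin 4) ℝ) (π : Fin 4 → ℝ), IsRevChain P π ∧
      probUnion P π ![1, 2] 4 < probSingle P π 3 4) ∧ ¬ Domination := by
  have key : probUnion PR piR ![1, 2] 4 < probSingle PR piR 3 4 := by
    rw [single_cast, union_cast]
    exact_mod_cast union_lt.trans single_gt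
  refine ⟨⟨PR, piR, chain, key⟩, fun h => ?_⟩
  have := h (Fin 4) PR piR chain 2 ![1, 2] (by norm_num) (by decide) 4 (by norm_num)
  have h3 : ∑ i, (![1, 2] : Fin 2 → ℕ) i = 3 := by decide
  rw [h3] at this
  exact absurd this (not_le.2 key)

end Pool.Agent.Results.MP_55034c_pr.Counterexample
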